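import Mathlib
import Pool.Agent.N178.HW.Defs
import Pool.Agent.V1168.GH.Ideal

/-!
# Weights of highest weight vectors are dominant
-/

set_option linter.unusedSectionVars false

namespace Pool.Agent.N42.GHC

open Finset Matrix Pool.Agent.W437.HC Pool.Agent.V1168.GH Pool.Agent.N178.HW

noncomputable section

section

variable {κ R P : Type} [Fintype κ] [DecidableEq κ] [Fintype R] [DecidableEq R] [DecidableEq P]
  {cls : R → P} {b : P → P} {inv : R → R} {jj : R → ℂ} {X : R → Prop} {h : R → ℤ}
  {T : Submodule ℂ (P → ℂ)}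

theorem act_diag (d : R → ℂ) (f : (κ → R) → ℂ) (z : κ → R) :
    act (diagonal d) f z = wt d z * f z := by
  unfold act wt
  rw [sum_mul]
  refine sum_congr rfl fun k _ => ?_
  rw [sum_eq_single (z k)]
  · rw [diagonal_apply_eq, Function.update_eq_self]
  · intro j _ hj
    rw [diagonal_apply_ne _ hj, zero_mul]
  · intro h
    exact absurd (mem_univ _) h

theorem jj_mul (hF : Fr cls b inv jj X) (x y : R) : jj x * jj y * (jj x * jj y) = 1 := by
  rcases hF.j1 x with h1 | h1 <;> rcases hF.j1 y with h2 | h2 <;> rw [h1, h2] <;> norm_num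

theorem jj_star (hF : Fr cls b inv jj X) (x : R) : star (jj x) = jj x := by
  rcases hF.j1 x with h1 | h1 <;> rw [h1] <;> simp

theorem EE_ct (hF : Fr cls b inv jj X) (x y : R) : (EE inv jj x y)ᴴ = EE inv jj y x := by
  unfold EE
  rw [conjTranspose_sub, conjTranspose_smul, conjTranspose_single, conjTranspose_single, star_one,
    star_mul', jj_star hF, jj_star hF, mul_comm (jj x)]

theorem ne_inv (hF : Fr cls b inv jj X) (x : R) : inv x ≠ x := by
  intro h
  have h1 := hF.Xi x
  rw [h] at h1
  by_cases h2 : X x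
  · exact h1.1 h2 h2
  · exact h2 (h1.2 h2)

/-- the diagonal of the commutator -/
def dd (inv : R → R) (x y : R) : R → ℂ := fun z =>
  (if z = y then 1 else 0) + (if z = inv x then 1 else 0) - (if z = x then 1 else 0)
    - (if z = inv y then 1 else 0)

theorem dd_diag (x y : R) : diagonal (dd inv x y) =
    single y y (1:ℂ) + single (inv x) (inv x) 1 - single x x 1 - single (inv y) (inv y) 1 := by
  ext i j
  rw [diagonal_apply]
  simp only [Matrix.sub_apply, Matrix.add_apply, Matrix.single_apply, dd]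
  by_cases hij : i = j
  · subst hij
    simp only [if_true, and_self, eq_comm]
  · rw [if_neg hij]
    have e : ∀ a : R, ¬ (a = i ∧ a = j) := fun a h => hij (h.1.symm.trans h.2)
    simp [e]

theorem comm1 (hF : Fr cls b inv jj X) {x y : R} (hy : y ≠ inv x) :
    EE inv jj y x * EE inv jj x y - EE inv jj x y * EE inv jj y x = diagonal (dd inv x y) := by
  have hx : x ≠ inv y := fun h => hy (by rw [h, hF.ii])
  rw [dd_diag]
  unfold EE
  simp only [mul_sub, sub_mul, smul_mul_assoc, mul_smul_comm, single_mul_single_same, mul_one]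
  have e1 : single y x (1:ℂ) * single (inv y) (inv x) 1 = 0 := single_mul_single_of_ne _ _ _ _ hx _
  have e2 : single (inv x) (inv y) (1:ℂ) * single x y 1 = 0 :=
    single_mul_single_of_ne _ _ _ _ hx.symm _
  have e3 : single x y (1:ℂ) * single (inv x) (inv y) 1 = 0 := single_mul_single_of_ne _ _ _ _ hy _
  have e4 : single (inv y) (inv x) (1:ℂ) * single y x 1 = 0 :=
    single_mul_single_of_ne _ _ _ _ hy.symm _
  rw [e1, e2, e3, e4]
  simp only [smul_zero, sub_zero, zero_sub, smul_neg, sub_neg_eq_add, smul_smul,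
    mul_comm (jj y) (jj x)]
  rw [jj_mul hF, one_smul, one_smul]
  abel

theorem comm2 (hF : Fr cls b inv jj X) {x y : R} (hy : y = inv x) :
    EE inv jj y x * EE inv jj x y - EE inv jj x y * EE inv jj y x =
      (2:ℂ) • diagonal (dd inv x y) := by
  have hx : inv y = x := by rw [hy, hF.ii]
  have hs : jj x * jj y = -1 := by
    rw [hy, hF.jn]
    rcases hF.j1 x with h1 | h1 <;> rw [h1] <;> norm_num
  rw [dd_diag]
  unfold EE
  rw [mul_comm (jj y), hs, hx, ← hy]
  simp only [neg_smul, one_smul, sub_neg_eq_add, mul_add, add_mul, single_mul_single_same, mul_one,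
    smul_sub, smul_add, two_smul]
  abel

theorem dd_Dg (hF : Fr cls b inv jj X) {x y : R} (hc : cls x = cls y) : Dg cls inv T (dd inv x y) := by
  constructor
  · intro z
    have e : ∀ a : R, (inv z = a) = (z = inv a) := fun a => propext
      ⟨fun h => by rw [← h, hF.ii], fun h => by rw [h, hF.ii]⟩
    unfold dd
    simp only [e, hF.ii]
    ring
  · have : (fun p => ∑ z ∈ univ.filter (fun z => cls z = p), dd inv x y z) = 0 := by
      funext p
      unfold dd
      simp only [sum_add_distrib, sum_sub_distrib, sum_ite_eq', mem_filter, mem_univ, true_and,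
        hF.ci, hc, Pi.zero_apply]
      ring
    rw [this]
    exact T.zero_mem

theorem dd_sum (c : R → ℤ) (hodd : ∀ x, c (inv x) = -c x) (x y : R) :
    ∑ z, (c z : ℂ) * dd inv x y z = 2 * ((c y : ℂ) - c x) := by
  unfold dd
  simp only [mul_add, mul_sub, sum_add_distrib, sum_sub_distrib, mul_ite, mul_one, mul_zero,
    sum_ite_eq', mem_univ, if_true, hodd]
  push_cast
  ring

theorem wt_dd (hF : Fr cls b inv jj X) {v : (κ → R) → ℂ} {c : R → ℤ}
    (hv : HV cls inv jj T h v c) {x y : R} (hc : cls x = cls y) {z : κ → R} (hz : v z ≠ 0) :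
    wt (dd inv x y) z = (c y : ℂ) - c x := by
  have h1 := hv.wts z hz _ (dd_Dg hF hc)
  rw [dd_sum c hv.odd] at h1
  exact mul_left_cancel₀ two_ne_zero h1

theorem act_dd (hF : Fr cls b inv jj X) {v : (κ → R) → ℂ} {c : R → ℤ}
    (hv : HV cls inv jj T h v c) {x y : R} (hc : cls x = cls y) :
    act (diagonal (dd inv x y)) v = ((c y : ℂ) - c x) • v := by
  funext z
  rw [act_diag, Pi.smul_apply, smul_eq_mul]
  by_cases hz : v z = 0
  · rw [hz, mul_zero, mul_zero]
  · rw [wt_dd hF hv hc hz]

theorem ip_smul_right' {ι : Type*} [Fintype ι] (a : ℂ) (u c : ι → ℂ) :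
    ip u (a • c) = a * ip u c := by
  unfold ip
  rw [mul_sum]
  exact sum_congr rfl fun I _ => by rw [Pi.smul_apply, smul_eq_mul]; ring

theorem ip_norm {ι : Type*} [Fintype ι] (u : ι → ℂ) : ip u u = ((∑ i, Complex.normSq (u i) : ℝ) : ℂ) := by
  unfold ip
  push_cast
  exact sum_congr rfl fun I _ => by rw [Complex.normSq_eq_conj_mul_self]

end

theorem t_DOM : S_DOM := by
  intro κ R P _ _ _ _ _ cls b inv jj X h T hF hh v c hv hv0 x y hc hxy
  have hE : act (EE inv jj x y) v = 0 := hv.kill x y hc hxy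
  have hcom := act_comm (EE inv jj x y) (EE inv jj y x) v
  rw [hE, act_zero_right, sub_zero] at hcom
  have h1 : ip (act (EE inv jj y x) v) (act (EE inv jj y x) v) =
      ip v (act (EE inv jj x y) (act (EE inv jj y x) v)) := by
    have := ip_act (EE inv jj x y) v (act (EE inv jj y x) v)
    rwa [EE_ct hF] at this
  have key : ∃ m : ℝ, 0 < m ∧ ip (act (EE inv jj y x) v) (act (EE inv jj y x) v) =
      ((m * ((c y : ℝ) - c x) : ℝ) : ℂ) * ip v v := by
    by_cases hy : y = inv x
    · refine ⟨2, two_pos, ?_⟩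
      rw [h1, hcom, comm2 hF hy, act_smul_left, act_dd hF hv hc, ip_smul_right', ip_smul_right']
      push_cast
      ring
    · refine ⟨1, one_pos, ?_⟩
      rw [h1, hcom, comm1 hF hy, act_dd hF hv hc, ip_smul_right']
      push_cast
      ring
  obtain ⟨m, hm, hk⟩ := key
  rw [ip_norm, ip_norm] at hk
  have hk' : ∑ i, Complex.normSq (act (EE inv jj y x) v i) =
      m * ((c y : ℝ) - c x) * ∑ i, Complex.normSq (v i) := by exact_mod_cast hk
  have hpos : 0 < ∑ i, Complex.normSq (v i) := by
    obtain ⟨i, hi⟩ := Function.ne_iff.1 hv0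
    refine sum_pos' (fun i _ => Complex.normSq_nonneg _) ⟨i, mem_univ _, ?_⟩
    exact Complex.normSq_pos.2 hi
  have hnn : 0 ≤ ∑ i, Complex.normSq (act (EE inv jj y x) v i) :=
    sum_nonneg fun i _ => Complex.normSq_nonneg _
  rw [hk'] at hnn
  by_contra hlt
  push Not at hlt
  have hlt' : ((c y : ℝ) - c x) < 0 := by
    have : (c y : ℝ) < c x := by exact_mod_cast hlt
    linarith
  have : m * ((c y : ℝ) - c x) * ∑ i, Complex.normSq (v i) < 0 :=
    mul_neg_of_neg_of_pos (mul_neg_of_pos_of_neg hm hlt') hpos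
  linarith

end

end Pool.Agent.N42.GHC
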