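import Mathlib
import Pool.Agent.N178.HW.Defs

/-!
# Height functions exist
-/

set_option linter.unusedSectionVars false

namespace Pool.Agent.N42.GHC

open Finset Matrix Pool.Agent.W437.HC Pool.Agent.V1168.GH Pool.Agent.N178.HW

noncomputable section

section

variable {R P : Type} [Fintype R] [DecidableEq R] [DecidableEq P] {cls : R → P}
  {b : P → P} {inv : R → R} {jj : R → ℂ} {X : R → Prop}

/-- an odd injective function, positive on `X` -/
def g0 (inv : R → R) (X : R → Prop) (x : R) : ℤ := by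
  classical
  exact if X x then 1 + ((Fintype.equivFin R x : ℕ) : ℤ)
    else -(1 + ((Fintype.equivFin R (inv x) : ℕ) : ℤ))

theorem g0_pos {x : R} (h : X x) : g0 inv X x = 1 + ((Fintype.equivFin R x : ℕ) : ℤ) := by
  unfold g0
  rw [if_pos h]

theorem g0_neg {x : R} (h : ¬ X x) :
    g0 inv X x = -(1 + ((Fintype.equivFin R (inv x) : ℕ) : ℤ)) := by
  unfold g0
  rw [if_neg h]

theorem g0_odd (hF : Fr cls b inv jj X) (x : R) : g0 inv X (inv x) = -g0 inv X x := by
  by_cases h : X x
  · have h' : ¬ X (inv x) := fun h2 => (hF.Xi x).1 h2 h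
    rw [g0_pos h, g0_neg h', hF.ii]
  · have h' : X (inv x) := (hF.Xi x).2 h
    rw [g0_neg h, g0_pos h', neg_neg]

theorem g0_inj (hF : Fr cls b inv jj X) {x y : R} (h : g0 inv X x = g0 inv X y) : x = y := by
  by_cases hx : X x <;> by_cases hy : X y
  · rw [g0_pos hx, g0_pos hy] at h
    have : (Fintype.equivFin R x : ℕ) = (Fintype.equivFin R y : ℕ) := by omega
    exact (Fintype.equivFin R).injective (Fin.ext this)
  · rw [g0_pos hx, g0_neg hy] at h
    omega
  · rw [g0_neg hx, g0_pos hy] at h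
    omega
  · rw [g0_neg hx, g0_neg hy] at h
    have : (Fintype.equivFin R (inv x) : ℕ) = (Fintype.equivFin R (inv y) : ℕ) := by omega
    have h2 := (Fintype.equivFin R).injective (Fin.ext this)
    rw [← hF.ii x, h2, hF.ii]

theorem g0_top {x y : R} (hx : X x) (hy : ¬ X y) : g0 inv X y < g0 inv X x := by
  rw [g0_pos hx, g0_neg hy]
  omega

/-- the members of a class -/
def cl (cls : R → P) (p : P) : Finset R := univ.filter fun x => cls x = p

theorem bb (hF : Fr cls b inv jj X) (x : R) : b (b (cls x)) = cls x := by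
  rw [← hF.ci, ← hF.ci, hF.ii]

theorem cl_inv (hF : Fr cls b inv jj X) (x : R) :
    cl cls (cls (inv x)) = (cl cls (cls x)).image inv := by
  ext y
  rw [cl, mem_filter, mem_image]
  constructor
  · rintro ⟨-, hy⟩
    refine ⟨inv y, ?_, hF.ii y⟩
    rw [cl, mem_filter]
    refine ⟨mem_univ _, ?_⟩
    rw [hF.ci, hy, hF.ci, bb hF]
  · rintro ⟨z, hz, rfl⟩
    rw [cl, mem_filter] at hz
    refine ⟨mem_univ _, ?_⟩
    rw [hF.ci, hz.2, hF.ci]

theorem inv_inj (hF : Fr cls b inv jj X) : Function.Injective inv := by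
  intro x y h
  rw [← hF.ii x, h, hF.ii]

/-- the height function -/
def ht (cls : R → P) (inv : R → R) (X : R → Prop) (x : R) : ℤ :=
  ((cl cls (cls x)).card : ℤ) * g0 inv X x - ∑ y ∈ cl cls (cls x), g0 inv X y

end

theorem t_HGT : S_HGT := by
  intro R P _ _ _ cls b inv jj X hF
  refine ⟨ht cls inv X, ?_, ?_, ?_, ?_⟩
  · intro x
    unfold ht
    rw [cl_inv hF, card_image_of_injective _ (inv_inj hF), g0_odd hF,
      sum_image fun x _ y _ h => inv_inj hF h]
    have : ∑ y ∈ cl cls (cls x), g0 inv X (inv y) = -∑ y ∈ cl cls (cls x), g0 inv X y := by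
      rw [← sum_neg_distrib]
      exact sum_congr rfl fun y _ => g0_odd hF y
    rw [this]
    ring
  · intro x y hc h
    have hpos : (0 : ℤ) < ((cl cls (cls y)).card : ℤ) := by
      have : y ∈ cl cls (cls y) := by simp [cl]
      exact_mod_cast card_pos.2 ⟨y, this⟩
    unfold ht at h
    rw [hc] at h
    have h2 : ((cl cls (cls y)).card : ℤ) * g0 inv X x = ((cl cls (cls y)).card : ℤ) * g0 inv X y := by
      linarith
    exact g0_inj hF (mul_left_cancel₀ hpos.ne' h2)
  · intro x y hc hx hy
    have hpos : (0 : ℤ) < ((cl cls (cls y)).card : ℤ) := by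
      have : y ∈ cl cls (cls y) := by simp [cl]
      exact_mod_cast card_pos.2 ⟨y, this⟩
    unfold ht
    rw [hc]
    have h1 := mul_lt_mul_of_pos_left (g0_top (inv := inv) hx hy) hpos
    linarith
  · intro p
    have h1 : ∀ x ∈ univ.filter (fun x => cls x = p), ht cls inv X x =
        ((cl cls p).card : ℤ) * g0 inv X x - ∑ y ∈ cl cls p, g0 inv X y := by
      intro x hx
      rw [mem_filter] at hx
      unfold ht
      rw [hx.2]
    rw [sum_congr rfl h1, sum_sub_distrib, sum_const, ← mul_sum, nsmul_eq_mul]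
    unfold cl
    ring

end

end Pool.Agent.N42.GHC
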