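import Pool.Agent.N178.HX.StmD

/-!
# Project GHC3: conjugation of involutions in `GR` to diagonal matrices, `S_PAIR → S_GEN`
(helper42, for helper178)
-/

set_option autoImplicit false

namespace Pool.Agent.N42.GHC.GEN

open Finset Matrix Pool.Agent.V1168.GH Pool.Agent.N178.HW Pool.Agent.N178.HX

noncomputable section

variable {R P : Type} [Fintype R] [DecidableEq R] [DecidableEq P]
  {cls : R → P} {b : P → P} {inv : R → R} {jj : R → ℂ} {X : R → Prop}

/-! ### Block matrices -/

/-- The matrix preserves the classes. -/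
def Bk (cls : R → P) (M : Matrix R R ℂ) : Prop := ∀ x y, cls x ≠ cls y → M x y = 0

theorem bk_one : Bk cls (1 : Matrix R R ℂ) := fun x y h => one_apply_ne fun e => h (by rw [e])

theorem bk_add {M N : Matrix R R ℂ} (hM : Bk cls M) (hN : Bk cls N) : Bk cls (M + N) :=
  fun x y h => by rw [Matrix.add_apply, hM x y h, hN x y h, add_zero]

theorem bk_neg {M : Matrix R R ℂ} (hM : Bk cls M) : Bk cls (-M) :=
  fun x y h => by rw [Matrix.neg_apply, hM x y h, neg_zero]

theorem bk_mul {M N : Matrix R R ℂ} (hM : Bk cls M) (hN : Bk cls N) : Bk cls (M * N) := by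
  intro x y h
  rw [mul_apply]
  refine sum_eq_zero fun z _ => ?_
  by_cases h1 : cls x = cls z
  · rw [hN z y (by rwa [← h1]), mul_zero]
  · rw [hM x z h1, zero_mul]

/-- The projection to a class. -/
def Pj (cls : R → P) (p : P) : Matrix R R ℂ := diagonal fun x => if cls x = p then 1 else 0

theorem pj_comm {M : Matrix R R ℂ} (hM : Bk cls M) (p : P) : Pj cls p * M = M * Pj cls p := by
  ext x y
  rw [Pj, diagonal_mul, mul_diagonal]
  by_cases h : cls x = cls y
  · rw [h, mul_comm]
  · rw [hM x y h, mul_zero, zero_mul]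

theorem tr_pj (M : Matrix R R ℂ) (p : P) :
    (Pj cls p * M).trace = ∑ x ∈ univ.filter (fun x => cls x = p), M x x := by
  rw [trace, sum_filter]
  refine sum_congr rfl fun x _ => ?_
  rw [diag_apply, Pj, diagonal_mul]
  split_ifs <;> simp

/-! ### The adjoint -/

/-- The adjoint for the symplectic form. -/
def ad (inv : R → R) (jj : R → ℂ) (M : Matrix R R ℂ) : Matrix R R ℂ :=
  fun x y => jj x * jj y * M (inv y) (inv x)

theorem ad_add (M N : Matrix R R ℂ) : ad inv jj (M + N) = ad inv jj M + ad inv jj N := by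
  ext x y
  simp only [ad, Matrix.add_apply]
  ring

theorem ad_neg (M : Matrix R R ℂ) : ad inv jj (-M) = -ad inv jj M := by
  ext x y
  simp only [ad, Matrix.neg_apply]
  ring

theorem inv_inj (hF : Fr cls b inv jj X) {x y : R} (h : inv x = inv y) : x = y := by
  rw [← hF.ii x, h, hF.ii]

theorem jsq (hF : Fr cls b inv jj X) (x : R) : jj x * jj x = 1 := by
  rcases hF.j1 x with h | h <;> rw [h] <;> ring

/-- The duality as a permutation. -/
def ivE (hF : Fr cls b inv jj X) : R ≃ R := ⟨inv, inv, hF.ii, hF.ii⟩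

theorem ad_one (hF : Fr cls b inv jj X) : ad inv jj (1 : Matrix R R ℂ) = 1 := by
  ext x y
  by_cases h : x = y
  · subst h
    simp only [ad, one_apply_eq, mul_one, jsq hF]
  · have h1 : inv y ≠ inv x := fun e => h (inv_inj hF e).symm
    simp only [ad, one_apply_ne h1, one_apply_ne h, mul_zero]

theorem ad_mul (hF : Fr cls b inv jj X) (M N : Matrix R R ℂ) :
    ad inv jj (M * N) = ad inv jj N * ad inv jj M := by
  ext x y
  simp only [ad, mul_apply, mul_sum]
  rw [← Equiv.sum_comp (ivE hF)]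
  refine sum_congr rfl fun z _ => ?_
  have h1 : ivE hF z = inv z := rfl
  rw [h1]
  have h2 := jsq hF z
  calc jj x * jj y * (M (inv y) (inv z) * N (inv z) (inv x))
      = jj x * jj y * (M (inv y) (inv z) * N (inv z) (inv x)) * (jj z * jj z) := by
        rw [h2, mul_one]
    _ = _ := by ring

theorem ad_iff (hF : Fr cls b inv jj X) {M : Matrix R R ℂ} :
    (∀ x y, M (inv y) (inv x) = -(jj x * jj y * M x y)) ↔ ad inv jj M = -M := by
  constructor
  · intro h
    ext x y
    simp only [ad, Matrix.neg_apply, h x y]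
    have h1 := jsq hF x
    have h2 := jsq hF y
    calc jj x * jj y * -(jj x * jj y * M x y) = -((jj x * jj x) * (jj y * jj y) * M x y) := by ring
      _ = _ := by rw [h1, h2]; ring
  · intro h x y
    have h3 := congrFun (congrFun h x) y
    simp only [ad, Matrix.neg_apply] at h3
    have h1 := jsq hF x
    have h2 := jsq hF y
    calc M (inv y) (inv x) = (jj x * jj x) * (jj y * jj y) * M (inv y) (inv x) := by
          rw [h1, h2]; ring
      _ = jj x * jj y * (jj x * jj y * M (inv y) (inv x)) := by ring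
      _ = _ := by rw [h3]; ring

/-! ### Conjugation -/

/-- The hypotheses on the involution. -/
structure Gd (cls : R → P) (inv : R → R) (jj : R → ℂ) (t : P → ℤ) (Y : Matrix R R ℂ) : Prop where
  bk : Bk cls Y
  sk : ad inv jj Y = -Y
  sq : Y * Y = 1
  tr : ∀ p, ∑ x ∈ univ.filter (fun x => cls x = p), Y x x = (t p : ℂ)

theorem inv1 {N : Matrix R R ℂ} (hN : N * N = 0) : (1 + N) * (1 + -N) = 1 := by
  rw [add_mul, one_mul, mul_add, mul_one, mul_neg, hN]
  simp

theorem inv2 {N : Matrix R R ℂ} (hN : N * N = 0) : (1 + -N) * (1 + N) = 1 := by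
  rw [add_mul, one_mul, mul_add, mul_one, neg_mul, hN]
  simp

theorem Gd.conj1 (hF : Fr cls b inv jj X) {t : P → ℤ} {Y : Matrix R R ℂ}
    (h : Gd cls inv jj t Y) {T : Submodule ℂ (P → ℂ)} {N : Matrix R R ℂ}
    (hN : N ∈ GR cls inv jj T) (hN2 : N * N = 0) : Gd cls inv jj t ((1 + -N) * Y * (1 + N)) := by
  have hb : Bk cls N := hN.1
  have hs : ad inv jj N = -N := (ad_iff hF).1 hN.2.1
  have b1 : Bk cls (1 + -N) := bk_add bk_one (bk_neg hb)
  have b2 : Bk cls (1 + N) := bk_add bk_one hb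
  refine ⟨bk_mul (bk_mul b1 h.bk) b2, ?_, ?_, ?_⟩
  · rw [ad_mul hF, ad_mul hF, ad_add, ad_add, ad_one hF, ad_neg, hs, h.sk, neg_neg]
    simp only [mul_assoc, neg_mul, mul_neg]
  · calc (1 + -N) * Y * (1 + N) * ((1 + -N) * Y * (1 + N))
        = (1 + -N) * Y * ((1 + N) * (1 + -N)) * Y * (1 + N) := by simp only [mul_assoc]
      _ = (1 + -N) * (Y * Y) * (1 + N) := by rw [inv1 hN2]; simp only [mul_assoc, one_mul]
      _ = 1 := by rw [h.sq, mul_one, inv2 hN2]
  · intro p
    rw [← tr_pj, ← h.tr p, ← tr_pj]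
    calc (Pj cls p * ((1 + -N) * Y * (1 + N))).trace
        = ((1 + -N) * (Pj cls p * Y * (1 + N))).trace := by
          rw [← mul_assoc, ← mul_assoc, pj_comm b1]
          simp only [mul_assoc]
      _ = (Pj cls p * Y * (1 + N) * (1 + -N)).trace := trace_mul_comm _ _
      _ = _ := by rw [mul_assoc, inv1 hN2, mul_one]

/-- The product of the list. -/
def pr (l : List (Matrix R R ℂ)) : Matrix R R ℂ := (l.map fun N => 1 + N).prod

theorem Gd.conj (hF : Fr cls b inv jj X) {t : P → ℤ} {T : Submodule ℂ (P → ℂ)}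
    (l : List (Matrix R R ℂ)) : ∀ {Y : Matrix R R ℂ}, Gd cls inv jj t Y →
    (∀ N ∈ l, N ∈ GR cls inv jj T ∧ N * N = 0) →
    ∃ g, g * pr l = 1 ∧ pr l * g = 1 ∧ Gd cls inv jj t (g * Y * pr l) := by
  induction l with
  | nil =>
    intro Y h _
    refine ⟨1, ?_, ?_, ?_⟩
    · simp [pr]
    · simp [pr]
    · simpa [pr] using h
  | cons N l ih =>
    intro Y h hl
    obtain ⟨h1, h2⟩ := hl N (by simp)
    obtain ⟨g, g1, g2, g3⟩ := ih (h.conj1 hF h1 h2) fun M hM => hl M (by simp [hM])
    have e : pr (N :: l) = (1 + N) * pr l := by simp [pr]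
    refine ⟨g * (1 + -N), ?_, ?_, ?_⟩
    · rw [e]
      calc g * (1 + -N) * ((1 + N) * pr l) = g * ((1 + -N) * (1 + N)) * pr l := by
            simp only [mul_assoc]
        _ = 1 := by rw [inv2 h2, mul_one, g1]
    · rw [e]
      calc (1 + N) * pr l * (g * (1 + -N)) = (1 + N) * (pr l * g) * (1 + -N) := by
            simp only [mul_assoc]
        _ = 1 := by rw [g2, mul_one, inv1 h2]
    · rw [e]
      have e2 : g * (1 + -N) * Y * ((1 + N) * pr l) = g * ((1 + -N) * Y * (1 + N)) * pr l := by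
        simp only [mul_assoc]
      rw [e2]
      exact g3

/-! ### Eigenvectors -/

theorem col (M : Matrix R R ℂ) (x y : R) : (M *ᵥ Pi.single x 1) y = M y x := by
  rw [mulVec_single_one]
  rfl

/-- The entries of `Y` in the columns outside of `A`. -/
theorem off (hF : Fr cls b inv jj X) {t : P → ℤ} {Y : Matrix R R ℂ} (h : Gd cls inv jj t Y)
    {A : R → Prop} (hA : ∀ x, A x → A (inv x)) {d : R → ℤ}
    (hd : ∀ x, A x → Y *ᵥ Pi.single x 1 = (d x : ℂ) • Pi.single x 1) {x y : R} (hx : ¬ A x)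
    (hy : A y) : Y y x = 0 := by
  have h1 := (ad_iff hF).2 h.sk (inv x) (inv y)
  rw [hF.ii, hF.ii] at h1
  have h2 : Y (inv x) (inv y) = 0 := by
    rw [← col Y (inv y) (inv x), hd (inv y) (hA y hy), Pi.smul_apply, Pi.single_apply, if_neg,
      smul_zero]
    intro e
    have := inv_inj hF e
    exact hx (this ▸ hy)
  rw [h1, h2, mul_zero, neg_zero]

/-- A vector supported in a class outside of `A` is mapped to such a vector. -/
theorem supp (hF : Fr cls b inv jj X) {t : P → ℤ} {Y : Matrix R R ℂ} (h : Gd cls inv jj t Y)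
    {A : R → Prop} (hA : ∀ x, A x → A (inv x)) {d : R → ℤ}
    (hd : ∀ x, A x → Y *ᵥ Pi.single x 1 = (d x : ℂ) • Pi.single x 1) {x : R} (hx : ¬ A x)
    (c : ℂ) (y : R) (hy : (Pi.single x 1 + c • (Y *ᵥ Pi.single x 1) : R → ℂ) y ≠ 0) :
    cls y = cls x ∧ ¬ A y := by
  rw [Pi.add_apply, Pi.smul_apply, col] at hy
  by_cases e : y = x
  · subst e
    exact ⟨rfl, hx⟩
  · rw [Pi.single_apply, if_neg e, zero_add] at hy
    refine ⟨?_, fun hA' => ?_⟩
    · by_contra h1
      rw [h.bk y x h1, smul_zero] at hy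
      exact hy rfl
    · rw [off hF h hA hd hx hA', smul_zero] at hy
      exact hy rfl

theorem sf_add (v w w' : R → ℂ) : sf inv jj v (w + w') = sf inv jj v w + sf inv jj v w' := by
  simp only [sf, Pi.add_apply, mul_add, sum_add_distrib]

theorem sf_smul (v w : R → ℂ) (c : ℂ) : sf inv jj v (c • w) = c * sf inv jj v w := by
  simp only [sf, Pi.smul_apply, smul_eq_mul, mul_sum]
  exact sum_congr rfl fun x _ => by ring

theorem sf_smul_left (v w : R → ℂ) (c : ℂ) : sf inv jj (c • v) w = c * sf inv jj v w := by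
  simp only [sf, Pi.smul_apply, smul_eq_mul, mul_sum]
  exact sum_congr rfl fun x _ => by ring

theorem sf_single (hF : Fr cls b inv jj X) (v : R → ℂ) (y : R) :
    sf inv jj v (Pi.single (inv y) 1) = jj y * v y := by
  unfold sf
  rw [sum_eq_single y]
  · rw [Pi.single_eq_same, mul_one]
  · intro z _ hz
    rw [Pi.single_apply, if_neg (fun e => hz (inv_inj hF e)), mul_zero]
  · intro h
    exact absurd (mem_univ _) h

/-- Skewness. -/
theorem sf_skew (hF : Fr cls b inv jj X) {Y : Matrix R R ℂ} (h : ad inv jj Y = -Y)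
    (v w : R → ℂ) : sf inv jj v (Y *ᵥ w) = -sf inv jj (Y *ᵥ v) w := by
  have hs := (ad_iff hF).2 h
  simp only [sf, mulVec, dotProduct, mul_sum, sum_mul]
  rw [← sum_neg_distrib]
  simp only [← sum_neg_distrib]
  have e1 : ∀ x, ∑ y, jj x * v x * (Y (inv x) y * w y) =
      ∑ y, jj x * v x * (Y (inv x) (inv y) * w (inv y)) := fun x =>
    (Equiv.sum_comp (ivE hF) fun y => jj x * v x * (Y (inv x) y * w y)).symm
  simp only [e1]
  rw [sum_comm]
  refine sum_congr rfl fun y _ => ?_
  refine sum_congr rfl fun x _ => ?_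
  rw [hs y x]
  have h1 := jsq hF x
  calc jj x * v x * (-(jj y * jj x * Y y x) * w (inv y))
      = -(jj y * (Y y x * v x) * w (inv y)) * (jj x * jj x) := by ring
    _ = _ := by rw [h1, mul_one]

/-! ### The induction -/

variable {T : Submodule ℂ (P → ℂ)}

theorem main (hP : S_PAIR) (hF : Fr cls b inv jj X) (hb : ∀ p, b (b p) = p) {t : P → ℤ}
    {d : R → ℤ} (hd : IsSg cls inv t d) (k : ℕ) : ∀ (A : R → Prop), (∀ x, A x → A (inv x)) →
    (∃ s : Finset R, s.card ≤ k ∧ ∀ x, ¬ A x → x ∈ s) → ∀ Y : Matrix R R ℂ, Gd cls inv jj t Y →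
    (∀ x, A x → Y *ᵥ Pi.single x 1 = (d x : ℂ) • Pi.single x 1) →
    ∃ l : List (Matrix R R ℂ), (∀ N ∈ l, N ∈ GR cls inv jj T ∧ N * N = 0) ∧
      Y * pr l = pr l * diagonal (fun x => (d x : ℂ)) := by
  classical
  have hdd : ∀ x, (d x : ℂ) * d x = 1 := by
    intro x
    rcases hd.one x with h | h <;> rw [h] <;> norm_num
  induction k with
  | zero =>
    intro A hA hs Y hY hYd
    obtain ⟨s, h1, h2⟩ := hs
    have hs0 : s = ∅ := card_eq_zero.1 (Nat.le_zero.1 h1)
    have hall : ∀ x, A x := by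
      intro x
      by_contra h
      have := h2 x h
      rw [hs0] at this
      simp at this
    refine ⟨[], by simp, ?_⟩
    simp only [pr, List.map_nil, List.prod_nil, mul_one, one_mul]
    ext y x
    rw [← col Y x y, hYd x (hall x), Pi.smul_apply, Pi.single_apply, diagonal_apply]
    by_cases e : y = x
    · subst e
      simp
    · simp [e]
  | succ k ih =>
    intro A hA hs Y hY hYd
    obtain ⟨s, h1, h2⟩ := hs
    by_cases hex : ∀ x, A x
    · exact ih A hA ⟨∅, by simp, fun x hx => absurd (hex x) hx⟩ Y hY hYd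
    push Not at hex
    obtain ⟨x₀, hx₀⟩ := hex
    -- the eigenvector `v`
    obtain ⟨x₁, hc1, hA1, hne⟩ : ∃ x₁, cls x₁ = cls x₀ ∧ ¬ A x₁ ∧
        Y *ᵥ Pi.single x₁ 1 ≠ -(d x₀ : ℂ) • Pi.single x₁ 1 := by
      by_contra hcon
      push Not at hcon
      have e1 : ∀ x, cls x = cls x₀ → ¬ A x → Y x x = -(d x₀ : ℂ) := by
        intro x h3 h4
        rw [← col Y x x, hcon x h3 h4, Pi.smul_apply, Pi.single_eq_same, smul_eq_mul, mul_one]
      have e2 : ∀ x, A x → Y x x = (d x : ℂ) := by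
        intro x h3
        rw [← col Y x x, hYd x h3, Pi.smul_apply, Pi.single_eq_same, smul_eq_mul, mul_one]
      have e3 : ∑ x ∈ univ.filter (fun x => cls x = cls x₀), ((d x : ℂ) - Y x x) = 0 := by
        rw [sum_sub_distrib, hY.tr, ← hd.sum (cls x₀)]
        push_cast
        ring
      have e4 : ∑ x ∈ univ.filter (fun x => cls x = cls x₀),
          (if A x then 0 else 1 + d x₀ * d x : ℤ) = 0 := by
        have e5 : ((∑ x ∈ univ.filter (fun x => cls x = cls x₀),
            (if A x then 0 else 1 + d x₀ * d x : ℤ) : ℤ) : ℂ) = 0 := by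
          have e6 : ((∑ x ∈ univ.filter (fun x => cls x = cls x₀),
              (if A x then 0 else 1 + d x₀ * d x : ℤ) : ℤ) : ℂ) =
              (d x₀ : ℂ) * ∑ x ∈ univ.filter (fun x => cls x = cls x₀), ((d x : ℂ) - Y x x) := by
            push_cast
            rw [mul_sum]
            refine sum_congr rfl fun x hx => ?_
            have hx' := (mem_filter.1 hx).2
            by_cases hAx : A x
            · rw [if_pos hAx, e2 x hAx, sub_self, mul_zero]
            · rw [if_neg hAx, e1 x hx' hAx, mul_sub, mul_neg, hdd]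
              ring
          rw [e6, e3, mul_zero]
        exact_mod_cast e5
      have e7 : ∀ x ∈ univ.filter (fun x => cls x = cls x₀),
          (0 : ℤ) ≤ (if A x then 0 else 1 + d x₀ * d x : ℤ) := by
        intro x _
        split_ifs
        · exact le_rfl
        · rcases hd.one x₀ with h | h <;> rcases hd.one x with h' | h' <;> rw [h, h'] <;> norm_num
      have e8 := (sum_eq_zero_iff_of_nonneg e7).1 e4 x₀ (mem_filter.2 ⟨mem_univ _, rfl⟩)
      rw [if_neg hx₀] at e8
      rcases hd.one x₀ with h | h <;> rw [h] at e8 <;> norm_num at e8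
    obtain ⟨v, hv⟩ : ∃ v : R → ℂ, v = Pi.single x₁ 1 + (d x₀ : ℂ) • (Y *ᵥ Pi.single x₁ 1) := ⟨_, rfl⟩
    have hv0 : v ≠ 0 := by
      intro h
      apply hne
      have h3 : (d x₀ : ℂ) • v = 0 := by rw [h, smul_zero]
      rw [hv, smul_add, smul_smul, hdd, one_smul] at h3
      rw [neg_smul]
      exact (neg_eq_of_add_eq_zero_right h3).symm
    have hYY : ∀ u : R → ℂ, Y *ᵥ (Y *ᵥ u) = u := fun u => by
      rw [mulVec_mulVec, hY.sq, one_mulVec]
    have hYv : Y *ᵥ v = (d x₀ : ℂ) • v := by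
      rw [hv, mulVec_add, mulVec_smul, hYY, smul_add, smul_smul, hdd, one_smul, add_comm]
    have hvs : ∀ x, v x ≠ 0 → cls x = cls x₀ ∧ ¬ A x := by
      intro x hx
      rw [hv] at hx
      have := supp hF hY hA hYd hA1 _ x hx
      exact ⟨this.1.trans hc1, this.2⟩
    -- the eigenvector `w`
    obtain ⟨y₀, hy₀⟩ := Function.ne_iff.1 hv0
    have hy₀' : v y₀ ≠ 0 := hy₀
    have hy₁ := hvs y₀ hy₀'
    have hiA : ¬ A (inv y₀) := fun h => hy₁.2 (by rw [← hF.ii y₀]; exact hA _ h)
    obtain ⟨w₁, hw₁⟩ : ∃ w₁ : R → ℂ,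
      w₁ = Pi.single (inv y₀) 1 + (-(d x₀ : ℂ)) • (Y *ᵥ Pi.single (inv y₀) 1) := ⟨_, rfl⟩
    have hYw₁ : Y *ᵥ w₁ = -(d x₀ : ℂ) • w₁ := by
      rw [hw₁, mulVec_add, mulVec_smul, hYY, smul_add, smul_smul, neg_mul_neg, hdd, one_smul,
        add_comm]
    have hw₁s : ∀ x, w₁ x ≠ 0 → cls x = b (cls x₀) ∧ ¬ A x := by
      intro x hx
      rw [hw₁] at hx
      have := supp hF hY hA hYd hiA _ x hx
      refine ⟨?_, this.2⟩
      rw [this.1, hF.ci, hy₁.1]
    have hsf : sf inv jj v w₁ = 2 * (jj y₀ * v y₀) := by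
      rw [hw₁, sf_add, sf_smul, sf_skew hF hY.sk, hYv, sf_smul_left, sf_single hF]
      have := hdd x₀
      calc jj y₀ * v y₀ + -(d x₀ : ℂ) * -(d x₀ * (jj y₀ * v y₀))
          = jj y₀ * v y₀ + ((d x₀ : ℂ) * d x₀) * (jj y₀ * v y₀) := by ring
        _ = _ := by rw [this]; ring
    have hj0 : jj y₀ ≠ 0 := by
      intro h
      have := jsq hF y₀
      rw [h, mul_zero] at this
      exact zero_ne_one this
    have hsf0 : sf inv jj v w₁ ≠ 0 := by
      rw [hsf]
      exact mul_ne_zero two_ne_zero (mul_ne_zero hj0 hy₀')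
    obtain ⟨w, hw⟩ : ∃ w : R → ℂ, w = (jj x₀ / sf inv jj v w₁) • w₁ := ⟨_, rfl⟩
    have hYw : Y *ᵥ w = -(d x₀ : ℂ) • w := by
      rw [hw, mulVec_smul, hYw₁, smul_comm]
    have hws : ∀ x, w x ≠ 0 → cls x = b (cls x₀) ∧ ¬ A x := by
      intro x hx
      refine hw₁s x fun h => hx ?_
      rw [hw, Pi.smul_apply, h, smul_zero]
    have hvw : sf inv jj v w = jj x₀ := by
      rw [hw, sf_smul, div_mul_cancel₀ _ hsf0]
    -- transitivity
    obtain ⟨c, l, hc, hl, hl1, hl2⟩ := hP hF hb T A hA x₀ hx₀ v w hvs hws hvw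
    have hl' : ∀ N ∈ l, N ∈ GR cls inv jj T ∧ N * N = 0 := fun N hN => ⟨(hl N hN).1, (hl N hN).2.1⟩
    have hl3 : pr l *ᵥ Pi.single x₀ 1 = c • v := hl1
    have hl4 : pr l *ᵥ Pi.single (inv x₀) 1 = c⁻¹ • w := hl2
    have hl5 : ∀ x, A x → pr l *ᵥ Pi.single x 1 = Pi.single x 1 := by
      intro x hx
      have gen : ∀ l : List (Matrix R R ℂ), (∀ N ∈ l, N *ᵥ Pi.single x 1 = 0) →
          pr l *ᵥ Pi.single x 1 = Pi.single x 1 := by
        intro l
        induction l with
        | nil =>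
          intro _
          simp only [pr, List.map_nil, List.prod_nil, one_mulVec]
        | cons N l ihl =>
          intro h
          have e : pr (N :: l) = (1 + N) * pr l := by simp [pr]
          rw [e, ← mulVec_mulVec, ihl fun M hM => h M (by simp [hM]), add_mulVec, one_mulVec,
            h N (by simp), add_zero]
      exact gen l fun N hN => (hl N hN).2.2 x hx
    obtain ⟨g, g1, g2, g3⟩ := hY.conj hF l hl'
    have hgl : ∀ u : R → ℂ, g *ᵥ (pr l *ᵥ u) = u := fun u => by
      rw [mulVec_mulVec, g1, one_mulVec]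
    have hY' : ∀ u : R → ℂ, (g * Y * pr l) *ᵥ u = g *ᵥ (Y *ᵥ (pr l *ᵥ u)) := fun u => by
      rw [← mulVec_mulVec, ← mulVec_mulVec]
    have hnew : ∀ x, (A x ∨ x = x₀ ∨ x = inv x₀) →
        (g * Y * pr l) *ᵥ Pi.single x 1 = (d x : ℂ) • Pi.single x 1 := by
      intro x hx
      rw [hY']
      rcases hx with hx | hx | hx
      · rw [hl5 x hx, hYd x hx, mulVec_smul]
        congr 1
        nth_rewrite 1 [← hl5 x hx]
        exact hgl _
      · rw [hx, hl3, mulVec_smul, hYv, smul_comm, mulVec_smul]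
        congr 1
        rw [← hl3]
        exact hgl _
      · rw [hx, hl4, mulVec_smul, hYw, smul_comm, mulVec_smul, hd.odd]
        push_cast
        congr 1
        rw [← hl4]
        exact hgl _
    obtain ⟨l', k1, k2⟩ := ih (fun x => A x ∨ x = x₀ ∨ x = inv x₀) (by
        rintro x (h | h | h)
        · exact Or.inl (hA x h)
        · exact Or.inr (Or.inr (by rw [h]))
        · exact Or.inr (Or.inl (by rw [h, hF.ii])))
      ⟨s.erase x₀, by
        rw [card_erase_of_mem (h2 x₀ hx₀)]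
        omega, fun x hx => by
        push Not at hx
        exact mem_erase.2 ⟨hx.2.1, h2 x hx.1⟩⟩ _ g3 hnew
    refine ⟨l ++ l', ?_, ?_⟩
    · intro N hN
      rcases List.mem_append.1 hN with h | h
      · exact hl' N h
      · exact k1 N h
    · have e : pr (l ++ l') = pr l * pr l' := by simp [pr]
      rw [e]
      calc Y * (pr l * pr l') = (pr l * g) * Y * pr l * pr l' := by
            rw [g2, one_mul]
            simp only [mul_assoc]
        _ = pr l * ((g * Y * pr l) * pr l') := by simp only [mul_assoc]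
        _ = pr l * pr l' * diagonal (fun x => (d x : ℂ)) := by rw [k2, mul_assoc]

/-- **(GEN)** -/
theorem t_GEN : S_PAIR → S_GEN := by
  intro hP R P _ _ _ cls b inv jj X hF hb T Y hY hYY t ht d hd
  have hG : Gd cls inv jj t Y := ⟨hY.1, (ad_iff hF).1 hY.2.1, hYY, ht⟩
  exact main hP hF hb hd (Fintype.card R) (fun _ => False) (fun _ h => h)
    ⟨univ, le_rfl, fun x _ => mem_univ x⟩ Y hG fun x h => h.elim

end

end Pool.Agent.N42.GHC.GEN
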